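import Pool.Agent.Helper16.NM.Riesz

namespace Pool.Agent.Helper16.NM

open Finset Complex

/-- Frequencies `h₀ b^(t i)` with `t` injective and `< M` are dissociated modulo `b^M`
if `b` does not divide `h₀`. -/
theorem dissoc_pow {ι : Type} [Fintype ι] {b M : ℕ} (hb : 2 ≤ b) {h0 : ℤ}
    (hh : ¬ (b : ℤ) ∣ h0) {t : ι → ℕ} (ht : Function.Injective t) (htM : ∀ i, t i < M) :
    Dissoc (b ^ M) (fun i => h0 * (b : ℤ) ^ (t i)) := by
  classical
  intro e he hdiv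
  by_contra hne
  push Not at hne
  obtain ⟨i1, hi1⟩ := hne
  obtain ⟨i0, hi0, hmin⟩ := Finset.exists_min_image (Finset.univ.filter fun i => e i ≠ 0) t
    ⟨i1, by simp [hi1]⟩
  rw [Finset.mem_filter] at hi0
  have hbpos : (0 : ℤ) < (b : ℤ) := by exact_mod_cast (by omega : 0 < b)
  have h1 : ((b : ℤ) ^ (t i0 + 1)) ∣ ∑ i, e i * (h0 * (b : ℤ) ^ (t i)) := by
    refine dvd_trans ?_ hdiv
    push_cast
    exact pow_dvd_pow _ (htM i0)
  have h2 : ((b : ℤ) ^ (t i0 + 1)) ∣ ∑ i ∈ Finset.univ.erase i0, e i * (h0 * (b : ℤ) ^ (t i)) := by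
    apply Finset.dvd_sum
    intro i hi
    rw [Finset.mem_erase] at hi
    by_cases h : e i = 0
    · rw [h, zero_mul]
      exact dvd_zero _
    · have h3 : t i0 ≤ t i := hmin i (by simp [h])
      have h4 : t i0 ≠ t i := fun h5 => hi.1 (ht h5).symm
      have h5 : t i0 + 1 ≤ t i := by omega
      exact Dvd.dvd.mul_left (Dvd.dvd.mul_left (pow_dvd_pow _ h5) _) _
  have h3 : ((b : ℤ) ^ (t i0 + 1)) ∣ e i0 * (h0 * (b : ℤ) ^ (t i0)) := by
    rw [← Finset.add_sum_erase _ _ (Finset.mem_univ i0)] at h1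
    exact (dvd_add_left h2).mp h1
  have h4 : (b : ℤ) ∣ e i0 * h0 := by
    have h5 : (b : ℤ) ^ (t i0) * (b : ℤ) ∣ (b : ℤ) ^ (t i0) * (e i0 * h0) := by
      rw [← pow_succ]
      refine h3.trans (dvd_of_eq ?_)
      ring
    exact Int.dvd_of_mul_dvd_mul_left (by positivity) h5 |> fun h => h
  rcases he i0 with h | h | h
  · rw [h] at h4
    apply hh
    rw [neg_one_mul] at h4
    exact (dvd_neg.mp h4)
  · exact hi0.2 h
  · rw [h, one_mul] at h4
    exact hh h4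

theorem r_mono {B B' : Finset ℕ} (h : B ⊆ B') (n : ℕ) : r B n ≤ r B' n :=
  Finset.card_le_card (Finset.filter_subset_filter _ (Finset.product_subset_product h h))

theorem r_eq_zero {B : Finset ℕ} {X n : ℕ} (h : ∀ a ∈ B, a < X) (hn : 2 * X ≤ n) : r B n = 0 := by
  unfold r
  rw [Finset.card_eq_zero, Finset.filter_eq_empty_iff]
  intro p hp
  rw [Finset.mem_product] at hp
  have := h _ hp.1
  have := h _ hp.2
  omega

theorem sum_r_sq_eq {B : Finset ℕ} {X N : ℕ} (h : ∀ a ∈ B, a < X) (hN : 2 * X ≤ N) :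
    ∑ n ∈ range N, (r B n : ℝ) ^ 2 = ∑ n ∈ range (2 * X), (r B n : ℝ) ^ 2 := by
  symm
  apply Finset.sum_subset
  · intro n hn
    rw [Finset.mem_range] at *
    omega
  · intro n _ hn
    rw [Finset.mem_range, not_lt] at hn
    rw [r_eq_zero h hn]
    simp

/-- trivial lower bound for the energy -/
theorem card_pow_le {B : Finset ℕ} {X : ℕ} (h : ∀ a ∈ B, a < X) :
    (B.card : ℝ) ^ 4 ≤ 2 * X * ∑ n ∈ range (2 * X), (r B n : ℝ) ^ 2 := by
  have h1 : (B.card : ℝ) ^ 2 = ∑ n ∈ range (2 * X), (r B n : ℝ) := by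
    have := sum_pairs B (N := 2 * X)
      (fun a ha b hb => by have := h a ha; have := h b hb; omega) (fun _ => 1)
    simp only [Finset.sum_const, nsmul_eq_mul, mul_one, Finset.card_product] at this
    rw [← this]
    push_cast
    ring
  have h2 : (B.card : ℝ) ^ 4 = (∑ n ∈ range (2 * X), (r B n : ℝ) * 1) ^ 2 := by
    simp only [mul_one]
    rw [← h1]
    ring
  rw [h2]
  refine le_trans (Finset.sum_mul_sq_le_sq_mul_sq _ _ _) ?_
  simp only [one_pow, Finset.sum_const, Finset.card_range, nsmul_eq_mul, mul_one]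
  push_cast
  rw [mul_comm]

/-- One class: all elements of `B` have a large exponential sum in a common direction at the
frequencies `h₀ b^(t i) / b^M`. -/
theorem one_class {ι : Type} [Fintype ι] [DecidableEq ι] {b M : ℕ} (hb : 2 ≤ b) {h0 : ℤ}
    (hh : ¬ (b : ℤ) ∣ h0) {t : ι → ℕ} (ht : Function.Injective t) (htM : ∀ i, t i < M)
    {B : Finset ℕ} (hB : ∀ a ∈ B, ∀ a' ∈ B, a + a' < b ^ M) {θ : ι → ℂ} (hθ : ∀ i, ‖θ i‖ ≤ 1)
    {δ : ℝ} (hδ : 0 < δ)
    (hlarge : ∀ a ∈ B, δ * Fintype.card ι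
      ≤ (∑ i, ee (b ^ M) (h0 * (b : ℤ) ^ (t i) * a) * θ i).re) :
    (B.card : ℝ) ^ 4 * Real.exp (δ ^ 4 / 4 * Fintype.card ι)
      ≤ (b : ℝ) ^ M * ∑ n ∈ range (b ^ M), (r B n : ℝ) ^ 2 := by
  rcases B.eq_empty_or_nonempty with hB0 | hB0
  · subst hB0
    simp only [Finset.card_empty, Nat.cast_zero]
    rw [zero_pow (by norm_num), zero_mul]
    positivity
  have h1 := exp_growth hB (dissoc_pow hb hh ht htM)
  push_cast at h1
  refine le_trans ?_ h1
  apply mul_le_mul_of_nonneg_left _ (by positivity)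
  apply Real.exp_le_exp.mpr
  have hT : (0 : ℝ) < B.card := by exact_mod_cast hB0.card_pos
  set z : ι → ℝ := fun i => ‖∑ a ∈ B, ee (b ^ M) (h0 * (b : ℤ) ^ (t i) * a)‖ / B.card with hz
  have hz0 : ∀ i, 0 ≤ z i := fun i => by positivity
  have hsum : δ * Fintype.card ι ≤ ∑ i, z i := by
    have e1 : (B.card : ℝ) * (δ * Fintype.card ι) ≤ ∑ i, ‖∑ a ∈ B, ee (b ^ M) (h0 * (b : ℤ) ^ (t i) * a)‖ := by
      calc (B.card : ℝ) * (δ * Fintype.card ι) = ∑ a ∈ B, δ * Fintype.card ι := by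
            rw [Finset.sum_const, nsmul_eq_mul]
        _ ≤ ∑ a ∈ B, (∑ i, ee (b ^ M) (h0 * (b : ℤ) ^ (t i) * a) * θ i).re :=
            Finset.sum_le_sum hlarge
        _ = (∑ i, (∑ a ∈ B, ee (b ^ M) (h0 * (b : ℤ) ^ (t i) * a)) * θ i).re := by
            rw [← Complex.re_sum, Finset.sum_comm]
            simp only [Finset.sum_mul]
        _ ≤ ‖∑ i, (∑ a ∈ B, ee (b ^ M) (h0 * (b : ℤ) ^ (t i) * a)) * θ i‖ := Complex.re_le_norm _
        _ ≤ ∑ i, ‖(∑ a ∈ B, ee (b ^ M) (h0 * (b : ℤ) ^ (t i) * a)) * θ i‖ := norm_sum_le _ _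
        _ ≤ ∑ i, ‖∑ a ∈ B, ee (b ^ M) (h0 * (b : ℤ) ^ (t i) * a)‖ := by
            refine Finset.sum_le_sum fun i _ => ?_
            rw [norm_mul]
            exact mul_le_of_le_one_right (norm_nonneg _) (hθ i)
    rw [hz, ← Finset.sum_div, le_div_iff₀ hT]
    linarith
  have hpow : δ ^ 4 * Fintype.card ι ≤ ∑ i, z i ^ 4 := by
    have e2 : ∀ i ∈ Finset.univ, 4 * δ ^ 3 * z i - 3 * δ ^ 4 ≤ z i ^ 4 := by
      intro i _
      have : z i ^ 4 - 4 * δ ^ 3 * z i + 3 * δ ^ 4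
          = (z i - δ) ^ 2 * (z i ^ 2 + 2 * δ * z i + 3 * δ ^ 2) := by ring
      have h3 : 0 ≤ (z i - δ) ^ 2 * (z i ^ 2 + 2 * δ * z i + 3 * δ ^ 2) := by
        have := hz0 i
        positivity
      linarith
    have e3 := Finset.sum_le_sum e2
    rw [Finset.sum_sub_distrib, ← Finset.mul_sum, Finset.sum_const, nsmul_eq_mul,
      Finset.card_univ] at e3
    have e4 : 4 * δ ^ 3 * (δ * Fintype.card ι) ≤ 4 * δ ^ 3 * ∑ i, z i :=
      mul_le_mul_of_nonneg_left hsum (by positivity)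
    nlinarith
  have : (1 : ℝ) / 4 * ∑ i, (‖∑ a ∈ B, ee (b ^ M) (h0 * (b : ℤ) ^ (t i) * a)‖ / B.card) ^ 4
      = 1 / 4 * ∑ i, z i ^ 4 := rfl
  rw [this]
  linarith

end Pool.Agent.Helper16.NM
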