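import Pool.Agent.Helper81.NM.Pair
import Pool.Agent.Helper81.NM.Arcs
import Pool.Agent.Helper5.NM.Joint
import Pool.Agent.Helper18.NM.Carry

set_option autoImplicit false

namespace Pool.Agent.Results.MP_12a1af_nt.NormalNumbers

open Finset Filter

/-- `rep A n` is the number of pairs `(a, a')` of elements of `A` with `a + a' = n`. -/
noncomputable def rep (A : Set ℕ) (n : ℕ) : ℕ :=
  {p : ℕ × ℕ | p.1 ∈ A ∧ p.2 ∈ A ∧ p.1 + p.2 = n}.ncard

/-- The pairs `(a, a')` of elements of `A` below `x` for which the number of `i < k` with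
`a' / M i` in the arc `[u a i, u a i + l a i)` modulo one, an arbitrary function of `a` and `i`,
differs from the sum of the lengths of these arcs by at least `η k`. -/
def Dev (A : Set ℕ) (x k : ℕ) (M : ℕ → ℝ) (u l : ℕ → ℕ → ℝ) (η : ℝ) : Set (ℕ × ℕ) :=
  {p | p.1 ∈ A ∧ p.2 ∈ A ∧ p.1 < x ∧ p.2 < x ∧
    η * k ≤ |({i | i < k ∧ Int.fract ((p.2 : ℝ) / M i - u p.1 i) < l p.1 i}.ncard : ℝ)
      - ∑ i ∈ range k, l p.1 i|}

/-- The block of `l` digits of `n` in base `b` which begins at the position `i` (the units are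
at the position `0`), as a number below `b ^ l`. -/
def block (b l i n : ℕ) : ℕ := n / b ^ i % b ^ l

/-- `a` is `(ε, l)`-normal in base `b`, with respect to the positions below `K`. -/
def Normal (b l : ℕ) (ε : ℝ) (K a : ℕ) : Prop :=
  ∀ v < b ^ l, |({i | i < K ∧ block b l i a = v}.ncard : ℝ) - K / (b : ℝ) ^ l| < ε * K

/-- `n` and `a` are `(ε, l)`-independent in base `b`, with respect to the positions below `K`. -/
def Independent (b l : ℕ) (ε : ℝ) (K n a : ℕ) : Prop :=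
  ∀ u < b ^ l, ∀ v < b ^ l,
    |({i | i < K ∧ block b l i n = u ∧ block b l i a = v}.ncard : ℝ)
      - K / (b : ℝ) ^ (2 * l)| < ε * K

/-- The number of positions `i < K` at which the addition of `a` and `a'` in base `b` has a
carry to the next position. -/
noncomputable def carries (b K a a' : ℕ) : ℕ :=
  {i | i < K ∧ b ^ (i + 1) ≤ a % b ^ (i + 1) + a' % b ^ (i + 1)}.ncard

theorem arc_ineq {lam η : ℝ} (hlam : 1 < lam) (hη : 0 < η) : ∃ c : ℝ, 0 < c ∧ ∃ C : ℝ, 0 < C ∧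
    ∀ (A : Set ℕ) (x k : ℕ) (M : ℕ → ℝ) (u l : ℕ → ℕ → ℝ),
      (∀ i < k, 1 ≤ M i ∧ M i ≤ x) → (∀ i, i + 1 < k → lam * M i ≤ M (i + 1)) →
      (∀ a, ∀ i < k, 0 ≤ l a i ∧ l a i ≤ 1) →
      ((Dev A x k M u l η).ncard : ℝ) ^ 2 * Real.exp (c * k)
        ≤ C * x * ∑ m ∈ range (2 * x), (rep A m : ℝ) ^ 2 := by
  obtain ⟨c, hc, C, hC, h⟩ := Pool.Agent.Helper81.NM.arcIneq hlam hη
  exact ⟨c, hc, C, hC, h⟩

theorem count_eq (K : ℕ) (P : ℕ → Prop) [DecidablePred P] :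
    {i | i < K ∧ P i}.ncard = ((range K).filter P).card := by
  rw [← Set.ncard_coe_finset]
  congr 1
  ext i
  simp

theorem normal_iff (b l : ℕ) (ε : ℝ) (K a : ℕ) :
    Pool.Agent.Helper16.NM.Nrm b l ε K a ↔ Normal b l ε K a := by
  unfold Pool.Agent.Helper16.NM.Nrm Normal block
  simp only [count_eq]

theorem independent_iff (b l : ℕ) (ε : ℝ) (K n a : ℕ) :
    Pool.Agent.Helper16.NM.Joint b l ε K n a ↔ Independent b l ε K n a := by
  unfold Pool.Agent.Helper16.NM.Joint Independent block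
  simp only [count_eq]

theorem exponent_le {b : ℕ} (hb : 2 ≤ b) {s t : ℝ} (h : s ≤ t) : (b : ℝ) ^ s ≤ (b : ℝ) ^ t :=
  Real.rpow_le_rpow_of_exponent_le (by exact_mod_cast (by omega : 1 ≤ b)) h

/-- (1) The inequality for the pairs `(a, a')` of elements of `A`: no rule predicts from `a` the
arcs in which `a'` lies modulo lacunary real moduli. (2) Its consequence for the digits in base
`b`: if `r_A(n) < n ^ c` for all large `n` then almost all elements of `A` are nearly normal, and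
for almost all `n`, in every representation `n = a + a'`, the digits of `a` are nearly
independent of the digits of `n` and the number of carries is nearly `K / 2`. -/
theorem result :
    (∀ lam η : ℝ, 1 < lam → 0 < η → ∃ c : ℝ, 0 < c ∧ ∃ C : ℝ, 0 < C ∧
      ∀ (A : Set ℕ) (x k : ℕ) (M : ℕ → ℝ) (u l : ℕ → ℕ → ℝ),
        (∀ i < k, 1 ≤ M i ∧ M i ≤ x) → (∀ i, i + 1 < k → lam * M i ≤ M (i + 1)) →
        (∀ a, ∀ i < k, 0 ≤ l a i ∧ l a i ≤ 1) →
        ((Dev A x k M u l η).ncard : ℝ) ^ 2 * Real.exp (c * k)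
          ≤ C * x * ∑ m ∈ range (2 * x), (rep A m : ℝ) ^ 2) ∧
    (∀ b l : ℕ, 2 ≤ b → ∀ ε : ℝ, 0 < ε → ∃ c : ℝ, 0 < c ∧ ∀ A : Set ℕ,
      (∀ᶠ n : ℕ in atTop, (rep A n : ℝ) < (n : ℝ) ^ c) →
        (∀ᶠ K : ℕ in atTop, ({a | a ∈ A ∧ a < b ^ K ∧ ¬ Normal b l ε K a}.ncard : ℝ)
          ≤ (b : ℝ) ^ ((1 / 2 - c) * K)) ∧
        (∀ᶠ K : ℕ in atTop, ({n | n < b ^ K ∧ ∃ a ∈ A, ∃ a' ∈ A, a + a' = n ∧
          ¬ (Independent b l ε K n a ∧ |(carries b K a a' : ℝ) - K / 2| < ε * K)}.ncard : ℝ)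
            ≤ (b : ℝ) ^ ((1 - c) * K))) := by
  refine ⟨fun lam η hlam hη => arc_ineq hlam hη, fun b l hb ε hε => ?_⟩
  obtain ⟨c1, hc1, h1⟩ := Pool.Agent.Helper16.NM.elementForm b l hb ε hε
  obtain ⟨c2, hc2, h2⟩ := Pool.Agent.Helper5.NM.jointForm Pool.Agent.Helper81.NM.pairIneq b l hb ε hε
  obtain ⟨c3, hc3, h3⟩ := Pool.Agent.Helper18.NM.carryForm b hb ε hε
  have hb1 : (1 : ℝ) < (b : ℝ) := by exact_mod_cast (by omega : 1 < b)
  have hb0 : (0 : ℝ) < (b : ℝ) := by linarith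
  set c : ℝ := min c1 (min c2 c3) / 2 with hc
  have hm0 : 0 < min c1 (min c2 c3) := lt_min hc1 (lt_min hc2 hc3)
  have hc0 : 0 < c := by positivity
  have hcc1 : c ≤ c1 := by
    have := min_le_left c1 (min c2 c3)
    linarith
  have hcc2 : 2 * c ≤ c2 := by
    have := (min_le_right c1 (min c2 c3)).trans (min_le_left c2 c3)
    linarith
  have hcc3 : 2 * c ≤ c3 := by
    have := (min_le_right c1 (min c2 c3)).trans (min_le_right c2 c3)
    linarith
  have hrep : ∀ d : ℝ, c ≤ d → ∀ A : Set ℕ, (∀ᶠ n : ℕ in atTop, (rep A n : ℝ) < (n : ℝ) ^ c) →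
      ∀ᶠ n : ℕ in atTop, (Pool.Agent.Helper16.NM.rep A n : ℝ) < (n : ℝ) ^ d := by
    intro d hd A hA
    filter_upwards [hA, eventually_ge_atTop 1] with n hn hn1
    refine lt_of_lt_of_le hn ?_
    exact Real.rpow_le_rpow_of_exponent_le (by exact_mod_cast hn1) hd
  refine ⟨c, hc0, fun A hA => ⟨?_, ?_⟩⟩
  · filter_upwards [h1 A (hrep c1 hcc1 A hA)] with K hK
    simp only [normal_iff] at hK
    refine hK.le.trans (exponent_le hb ?_)
    have h4 : (0 : ℝ) ≤ K := Nat.cast_nonneg K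
    nlinarith
  · have hlarge : ∀ᶠ K : ℕ in atTop, (2 : ℝ) ≤ (b : ℝ) ^ (c * K) := by
      have e1 : Tendsto (fun K : ℕ => (b : ℝ) ^ (c * K)) atTop atTop := by
        apply (tendsto_rpow_atTop_of_base_gt_one _ hb1).comp
        exact tendsto_natCast_atTop_atTop.const_mul_atTop hc0
      exact e1.eventually_ge_atTop 2
    filter_upwards [h2 A (hrep c2 (by linarith) A hA), h3 A (hrep c3 (by linarith) A hA), hlarge]
      with K hK2 hK3 hK
    simp only [independent_iff] at hK2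
    have hK0 : (0 : ℝ) ≤ K := Nat.cast_nonneg K
    set S2 : Set ℕ := {n | n < b ^ K ∧ ∃ a ∈ A, ∃ a' ∈ A, a + a' = n ∧ ¬ Independent b l ε K n a}
      with hS2
    set S3 : Set ℕ := {n | n < b ^ K ∧ ∃ a ∈ A, ∃ a' ∈ A, a + a' = n ∧
      ε * K ≤ |(({i | i < K ∧ b ^ (i + 1) ≤ a % b ^ (i + 1) + a' % b ^ (i + 1)} : Set ℕ).ncard : ℝ)
        - K / 2|} with hS3
    have hf2 : S2.Finite := (Set.finite_Iio (b ^ K)).subset fun n hn => hn.1
    have hf3 : S3.Finite := (Set.finite_Iio (b ^ K)).subset fun n hn => hn.1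
    have hsub : {n | n < b ^ K ∧ ∃ a ∈ A, ∃ a' ∈ A, a + a' = n ∧
        ¬ (Independent b l ε K n a ∧ |(carries b K a a' : ℝ) - K / 2| < ε * K)} ⊆ S2 ∪ S3 := by
      rintro n ⟨hn, a, ha, a', ha', hs, hnot⟩
      by_cases hind : Independent b l ε K n a
      · right
        refine ⟨hn, a, ha, a', ha', hs, ?_⟩
        by_contra hcon
        exact hnot ⟨hind, lt_of_not_ge hcon⟩
      · left
        exact ⟨hn, a, ha, a', ha', hs, hind⟩
    have hcard : ({n | n < b ^ K ∧ ∃ a ∈ A, ∃ a' ∈ A, a + a' = n ∧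
        ¬ (Independent b l ε K n a ∧ |(carries b K a a' : ℝ) - K / 2| < ε * K)}.ncard : ℝ)
        ≤ (S2.ncard : ℝ) + S3.ncard := by
      have e1 := (Set.ncard_le_ncard hsub (hf2.union hf3)).trans (Set.ncard_union_le S2 S3)
      exact_mod_cast e1
    have e2 : (S2.ncard : ℝ) ≤ (b : ℝ) ^ ((1 - 2 * c) * K) :=
      hK2.le.trans (exponent_le hb (by nlinarith))
    have e3 : (S3.ncard : ℝ) ≤ (b : ℝ) ^ ((1 - 2 * c) * K) :=
      hK3.le.trans (exponent_le hb (by nlinarith))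
    calc _ ≤ (S2.ncard : ℝ) + S3.ncard := hcard
      _ ≤ 2 * (b : ℝ) ^ ((1 - 2 * c) * K) := by linarith
      _ ≤ (b : ℝ) ^ (c * K) * (b : ℝ) ^ ((1 - 2 * c) * K) :=
          mul_le_mul_of_nonneg_right hK (Real.rpow_nonneg hb0.le _)
      _ = (b : ℝ) ^ ((1 - c) * K) := by
          rw [← Real.rpow_add hb0]
          congr 1
          ring

end Pool.Agent.Results.MP_12a1af_nt.NormalNumbers
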