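import Pool.Agent.Helper16.NM.V1

/-!
Literal forms of the statements of the text NormalNumbers.
-/

namespace Pool.Agent.Helper16.NM

open Finset Filter

/-- the pair `(n, a)` is jointly `(ε, l)`-normal in base `b` (first `K` digits) -/
def Joint (b l : ℕ) (ε : ℝ) (K n a : ℕ) : Prop :=
  ∀ u < b ^ l, ∀ v < b ^ l,
    |(((range K).filter fun i => n / b ^ i % b ^ l = u ∧ a / b ^ i % b ^ l = v).card : ℝ)
      - K / (b : ℝ) ^ (2 * l)| < ε * K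

/-- the pairs of elements of `A` below `x` for which the number of `i < k` with `n / M i` in the
arc `[u i, u i + l i)` and `a / M i` in the arc `[u' i, u' i + l' i)` modulo one differs by at
least `η k` from the expected number; `n = a + a'` -/
def Bad (A : Set ℕ) (x k : ℕ) (M u l u' l' : ℕ → ℝ) (η : ℝ) : Set (ℕ × ℕ) :=
  {p | p.1 ∈ A ∧ p.2 ∈ A ∧ p.1 < x ∧ p.2 < x ∧
    η * k ≤ |(Set.ncard {i | i < k ∧ Int.fract (((p.1 + p.2 : ℕ) : ℝ) / M i - u i) < l i ∧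
      Int.fract ((p.1 : ℝ) / M i - u' i) < l' i} : ℝ) - ∑ i ∈ range k, l i * l' i|}

/-- (1) the inequality for pairs -/
def PairIneq : Prop := ∀ lam η : ℝ, 1 < lam → 0 < η → ∃ c > 0, ∃ C > 0,
  ∀ (A : Set ℕ) (x k : ℕ) (M u l u' l' : ℕ → ℝ),
    (∀ i < k, 1 ≤ M i ∧ M i ≤ x) → (∀ i, i + 1 < k → lam * M i ≤ M (i + 1)) →
    (∀ i < k, 0 ≤ l i ∧ l i ≤ 1 ∧ 0 ≤ l' i ∧ l' i ≤ 1) →
    ((Bad A x k M u l u' l' η).ncard : ℝ) ^ 2 * Real.exp (c * k)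
      ≤ C * x * ∑ n ∈ range (2 * x), (rep A n : ℝ) ^ 2

/-- (2b) hence: all representations of almost all `n` are jointly normal -/
def JointForm : Prop := ∀ b l : ℕ, 2 ≤ b → ∀ ε : ℝ, 0 < ε → ∃ c : ℝ, 0 < c ∧ ∀ A : Set ℕ,
  (∀ᶠ n : ℕ in atTop, (rep A n : ℝ) < (n : ℝ) ^ c) →
    ∀ᶠ K : ℕ in atTop,
      (Set.ncard {n | n < b ^ K ∧ ∃ a ∈ A, ∃ a' ∈ A, a + a' = n ∧ ¬ Joint b l ε K n a} : ℝ)
        < (b : ℝ) ^ ((K : ℝ) * (1 - c))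

/-- (2a) -/
def ElementForm : Prop := ∀ b l : ℕ, 2 ≤ b → ∀ ε : ℝ, 0 < ε → ∃ c : ℝ, 0 < c ∧ ∀ A : Set ℕ,
  (∀ᶠ n : ℕ in atTop, (rep A n : ℝ) < (n : ℝ) ^ c) →
    ∀ᶠ K : ℕ in atTop, (Set.ncard {a | a ∈ A ∧ a < b ^ K ∧ ¬ Nrm b l ε K a} : ℝ)
      < (b : ℝ) ^ ((K : ℝ) * (1 / 2 - c))

theorem elementForm : ElementForm := fun b l hb ε hε => normal_elements b l hb ε hε

end Pool.Agent.Helper16.NM
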