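import Pool.Agent.Helper16.NM.Base
import Pool.Agent.Helper67.NM.Weyl

namespace Pool.Agent.Helper16.NM

open Finset Complex

/-- the number of positions `i < K` at which the block of `l` digits of `n` in base `b`
(`l` digits starting at position `i`, least significant digit first) is `w i` -/
noncomputable def hits (b l K : ℕ) (w : ℕ → ℕ) (n : ℕ) : ℕ :=
  ((range K).filter fun i => n / b ^ i % b ^ l = w i).card

theorem ee_eq (N : ℕ) (m : ℤ) : ee N m = Pool.Agent.Helper73.MD.ee ((m : ℝ) / N) := by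
  unfold ee Pool.Agent.Helper73.MD.ee
  congr 1
  push_cast
  ring

/-- the block at position `i` is `v` iff the fractional part is in the right interval -/
theorem fract_lt_iff {b l i n v : ℕ} (hb : 2 ≤ b) (hv : v < b ^ l) :
    ((b ^ l : ℕ) : ℝ) * Int.fract ((n : ℝ) / (b : ℝ) ^ (i + l) - (v : ℝ) / (b : ℝ) ^ l) < 1
      ↔ n / b ^ i % b ^ l = v := by
  have hbl : 0 < b ^ l := by positivity
  have hbi : 0 < b ^ i := by positivity
  have hbR : (0 : ℝ) < (b : ℝ) := by positivity
  -- write n = b^i * (b^l * q + u) + r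
  set u := n / b ^ i % b ^ l with hu
  set q := n / b ^ i / b ^ l with hq
  set r0 := n % b ^ i with hr
  have h1 : n = b ^ i * (b ^ l * q + u) + r0 := by
    have e1 := Nat.div_add_mod n (b ^ i)
    have e2 := Nat.div_add_mod (n / b ^ i) (b ^ l)
    rw [← hq, ← hu] at e2
    rw [e2]
    exact e1.symm
  have hr0 : r0 < b ^ i := Nat.mod_lt _ hbi
  have hu0 : u < b ^ l := Nat.mod_lt _ hbl
  have h2 : (n : ℝ) / (b : ℝ) ^ (i + l) - (v : ℝ) / (b : ℝ) ^ l
      = (q : ℝ) + ((u : ℝ) - v + (r0 : ℝ) / (b : ℝ) ^ i) / (b : ℝ) ^ l := by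
    rw [h1]
    push_cast
    rw [pow_add]
    field_simp
    ring
  rw [h2]
  have h3 : Int.fract ((q : ℝ) + ((u : ℝ) - v + (r0 : ℝ) / (b : ℝ) ^ i) / (b : ℝ) ^ l)
      = Int.fract (((u : ℝ) - v + (r0 : ℝ) / (b : ℝ) ^ i) / (b : ℝ) ^ l) := by
    have := Int.fract_natCast_add q (((u : ℝ) - v + (r0 : ℝ) / (b : ℝ) ^ i) / (b : ℝ) ^ l)
    exact this
  rw [h3]
  set ρ := (r0 : ℝ) / (b : ℝ) ^ i with hρ
  have hρ0 : 0 ≤ ρ := by positivity
  have hρ1 : ρ < 1 := by
    rw [hρ, div_lt_one (by positivity)]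
    exact_mod_cast hr0
  have hblR : (0 : ℝ) < (b : ℝ) ^ l := by positivity
  push_cast
  rcases le_or_gt v u with hle | hlt
  · have hge : (0 : ℝ) ≤ (u : ℝ) - v := by
      rw [sub_nonneg]; exact_mod_cast hle
    have hlt1 : ((u : ℝ) - v + ρ) / (b : ℝ) ^ l < 1 := by
      rw [div_lt_one hblR]
      have : (u : ℝ) + 1 ≤ (b : ℝ) ^ l := by exact_mod_cast hu0
      have : (0 : ℝ) ≤ v := by positivity
      linarith
    rw [Int.fract_eq_self.mpr ⟨by positivity, hlt1⟩]
    rw [mul_div_cancel₀ _ hblR.ne']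
    constructor
    · intro h
      have h4 : (u : ℝ) - v < 1 := by linarith
      have h5 : (u : ℝ) < v + 1 := by linarith
      have h6 : u < v + 1 := by exact_mod_cast h5
      omega
    · intro h
      rw [h]
      linarith
  · have h4 : (u : ℝ) + 1 ≤ v := by exact_mod_cast hlt
    have h5 : (v : ℝ) + 1 ≤ (b : ℝ) ^ l := by exact_mod_cast hv
    have h6 : Int.fract (((u : ℝ) - v + ρ) / (b : ℝ) ^ l)
        = ((u : ℝ) - v + ρ) / (b : ℝ) ^ l + 1 := by
      rw [← Int.fract_add_one, Int.fract_eq_self]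
      constructor
      · rw [← sub_le_iff_le_add, zero_sub, le_div_iff₀ hblR]
        have : (0 : ℝ) ≤ u := by positivity
        linarith
      · have : ((u : ℝ) - v + ρ) / (b : ℝ) ^ l < 0 := by
          apply div_neg_of_neg_of_pos _ hblR
          linarith
        linarith
    rw [h6, mul_add, mul_div_cancel₀ _ hblR.ne']
    constructor
    · intro h
      have : (0 : ℝ) ≤ u := by positivity
      exfalso
      linarith
    · intro h
      omega

theorem hits_eq_cnt {b l K n : ℕ} (hb : 2 ≤ b) {w : ℕ → ℕ} (hw : ∀ i, w i < b ^ l) :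
    Pool.Agent.Helper67.NM.cnt K
      (fun i => (n : ℝ) / (b : ℝ) ^ (i + l) - (w i : ℝ) / (b : ℝ) ^ l) (b ^ l) 0
      = hits b l K w n := by
  unfold Pool.Agent.Helper67.NM.cnt hits
  congr 1
  apply Finset.filter_congr
  intro i _
  rw [Nat.cast_zero, zero_add, fract_lt_iff hb (hw i)]
  constructor
  · intro h
    exact h.2
  · intro h
    exact ⟨by positivity, h⟩

/-- pigeonhole: one colour class is large -/
theorem exists_class {α : Type} [DecidableEq α] (B : Finset ℕ) (S : Finset α) (P : α → ℕ → Prop)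
    (h : ∀ n ∈ B, ∃ s ∈ S, P s n) (hB : B.Nonempty) :
    ∃ s ∈ S, ∃ B' ⊆ B, (∀ n ∈ B', P s n) ∧ B.card ≤ S.card * B'.card := by
  classical
  have hS : S.Nonempty := by
    obtain ⟨n, hn⟩ := hB
    obtain ⟨s, hs, _⟩ := h n hn
    exact ⟨s, hs⟩
  obtain ⟨s, hs, hmax⟩ := Finset.exists_max_image S (fun s => (B.filter (P s)).card) hS
  refine ⟨s, hs, B.filter (P s), Finset.filter_subset _ _, fun n hn => (Finset.mem_filter.mp hn).2, ?_⟩
  calc B.card ≤ (S.biUnion fun s => B.filter (P s)).card := by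
        apply Finset.card_le_card
        intro n hn
        obtain ⟨s, hs, hP⟩ := h n hn
        rw [Finset.mem_biUnion]
        exact ⟨s, hs, Finset.mem_filter.mpr ⟨hn, hP⟩⟩
    _ ≤ ∑ s ∈ S, (B.filter (P s)).card := Finset.card_biUnion_le
    _ ≤ S.card * (B.filter (P s)).card := by
        rw [← smul_eq_mul]
        exact Finset.sum_le_card_nsmul _ _ _ hmax

/-- The finite inequality. -/
theorem main_ineq (b l : ℕ) (hb : 2 ≤ b) (ε : ℝ) (hε : 0 < ε) :
    ∃ c : ℝ, 0 < c ∧ ∃ C : ℝ, 0 < C ∧ ∀ (K : ℕ) (W : Finset (ℕ → ℕ)) (B : Finset ℕ),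
      (∀ w ∈ W, ∀ i, w i < b ^ l) →
      (∀ n ∈ B, n < b ^ K ∧ ∃ w ∈ W, ε * K ≤ |(hits b l K w n : ℝ) - K / (b : ℝ) ^ l|) →
      (B.card : ℝ) ^ 4 * Real.exp (c * K)
        ≤ C * (W.card : ℝ) ^ 4 * (b : ℝ) ^ K * ∑ n ∈ range (2 * b ^ K), (r B n : ℝ) ^ 2 := by
  classical
  have hbl : 1 ≤ b ^ l := Nat.one_le_pow _ _ (by omega)
  obtain ⟨H, e, he, hweyl⟩ := Pool.Agent.Helper67.NM.weyl hbl hε
  have hbR : (0 : ℝ) < (b : ℝ) := by positivity
  set c : ℝ := (e / 2) ^ 4 / 8 with hc
  have hc0 : 0 < c := by positivity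
  set K0 : ℝ := 2 * H / e + 2 * H with hK0
  have hK00 : 0 ≤ K0 := by positivity
  set C1 : ℝ := 2 * Real.exp (c * K0) with hC1
  set C2 : ℝ := (4 * H : ℝ) ^ 4 * (b : ℝ) ^ (l + 1) with hC2
  have hC1p : 0 < C1 := by positivity
  have hC2p : 0 ≤ C2 := by positivity
  refine ⟨c, hc0, C1 + C2, by positivity, fun K W B hW hBW => ?_⟩
  set E : ℝ := ∑ n ∈ range (2 * b ^ K), (r B n : ℝ) ^ 2 with hE
  have hE0 : 0 ≤ E := Finset.sum_nonneg fun n _ => by positivity
  rcases B.eq_empty_or_nonempty with hB0 | hB0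
  · subst hB0
    simp only [Finset.card_empty, Nat.cast_zero]
    rw [zero_pow (by norm_num), zero_mul]
    positivity
  have hBlt : ∀ a ∈ B, a < b ^ K := fun a ha => (hBW a ha).1
  have hW1 : (1 : ℝ) ≤ W.card := by
    obtain ⟨n, hn⟩ := hB0
    obtain ⟨w, hw, _⟩ := (hBW n hn).2
    exact_mod_cast Finset.card_pos.mpr ⟨w, hw⟩
  have hW4 : (1 : ℝ) ≤ (W.card : ℝ) ^ 4 := one_le_pow₀ hW1
  rcases lt_or_ge (K : ℝ) K0 with hKs | hKl
  · -- small K
    have h1 := card_pow_le hBlt
    push_cast at h1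
    calc (B.card : ℝ) ^ 4 * Real.exp (c * K)
        ≤ (2 * (b : ℝ) ^ K * E) * Real.exp (c * K0) := by
          apply mul_le_mul h1 (Real.exp_le_exp.mpr (mul_le_mul_of_nonneg_left hKs.le hc0.le))
            (Real.exp_pos _).le (by positivity)
      _ = C1 * 1 * (b : ℝ) ^ K * E := by rw [hC1]; ring
      _ ≤ (C1 + C2) * (W.card : ℝ) ^ 4 * (b : ℝ) ^ K * E := by
          gcongr
          linarith
  · -- large K
    set S : Finset ((ℕ → ℕ) × ℕ × Fin 4) := W ×ˢ (Finset.Icc 1 H) ×ˢ Finset.univ with hS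
    set y : (ℕ → ℕ) → ℕ → ℕ → ℝ :=
      fun w n i => (n : ℝ) / (b : ℝ) ^ (i + l) - (w i : ℝ) / (b : ℝ) ^ l with hy
    obtain ⟨⟨w, h, d⟩, hs, B', hB'sub, hB'P, hcard⟩ := exists_class B S
      (fun s n => e * K ≤ (Complex.I ^ (s.2.2 : ℕ) * Pool.Agent.Helper67.NM.es K (y s.1 n) s.2.1).re)
      (by
        intro n hn
        obtain ⟨hnK, w, hw, hdev⟩ := hBW n hn
        have h1 := hweyl K (y w n) 0 (by positivity)
        have h2 : Pool.Agent.Helper67.NM.cnt K (y w n) (b ^ l) 0 = hits b l K w n :=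
          hits_eq_cnt hb (hW w hw)
        rw [h2] at h1
        push_cast at h1
        obtain ⟨h, h1, hH, d, hd⟩ := h1 hdev
        refine ⟨(w, h, d), ?_, hd⟩
        simp [hS, hw, h1, hH]) hB0
    have hs' : w ∈ W ∧ (1 ≤ h ∧ h ≤ H) := by
      simp only [hS, Finset.mem_product, Finset.mem_Icc, Finset.mem_univ, and_true] at hs
      exact hs
    obtain ⟨hwW, hh1, hhH⟩ := hs'
    obtain ⟨s, h0, hbh0, hhs⟩ := Nat.exists_eq_pow_mul_and_not_dvd (n := h) (by omega) b (by omega)
    have hsH : s + 1 ≤ H := by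
      have h1 : s < b ^ s := Nat.lt_pow_self (by omega)
      have h2 : 1 ≤ h0 := Nat.one_le_iff_ne_zero.mpr (fun h3 => hbh0 (by rw [h3]; exact dvd_zero _))
      have h3 : b ^ s ≤ h := by
        rw [hhs]
        exact Nat.le_mul_of_pos_right _ h2
      omega
    set M : ℕ := K + l + 1 with hM
    set I0 : Finset ℕ := (range K).filter (fun i => s < i + l) with hI0
    have hI0card : K ≤ I0.card + H := by
      have h1 : ((range K).filter (fun i => ¬ s < i + l)).card ≤ s + 1 := by
        rw [← Finset.card_range (s + 1)]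
        apply Finset.card_le_card
        intro i hi
        rw [Finset.mem_filter] at hi
        rw [Finset.mem_range]
        omega
      have h2 := Finset.card_filter_add_card_filter_not (s := range K) (fun i => s < i + l)
      rw [Finset.card_range] at h2
      have h3 : ((range K).filter (fun i => s < i + l)).card = I0.card := rfl
      omega
    have hI0K : I0.card ≤ K := by
      have := Finset.card_filter_le (range K) (fun i => s < i + l)
      rwa [Finset.card_range] at this
    have hHR : (s : ℝ) + 1 ≤ H := by exact_mod_cast hsH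
    have hKe : 2 * (H : ℝ) ≤ e * K := by
      have h1 : 2 * (H : ℝ) / e ≤ K := by
        have : (0 : ℝ) ≤ 2 * H := by positivity
        linarith
      rw [div_le_iff₀ he] at h1
      linarith
    have hKH : 2 * (H : ℝ) ≤ K := by
      have : (0 : ℝ) ≤ 2 * H / e := by positivity
      linarith
    have hB'lt : ∀ a ∈ B', a < b ^ K := fun a ha => hBlt a (hB'sub ha)
    have hbM : 2 * b ^ K ≤ b ^ M := by
      rw [hM, pow_succ, pow_add]
      have h1 : 1 ≤ b ^ l := hbl
      calc 2 * b ^ K = b ^ K * 1 * 2 := by ring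
        _ ≤ b ^ K * b ^ l * b := by gcongr
    have hexp : ∀ (a : ℕ) (i : ℕ), i < K → s < i + l →
        ee (b ^ M) ((h0 : ℤ) * (b : ℤ) ^ (K + 1 + s - i) * a)
          * (Complex.I ^ (d : ℕ) * Pool.Agent.Helper73.MD.ee (-((h : ℝ) * w i / (b : ℝ) ^ l)))
          = Complex.I ^ (d : ℕ) * Pool.Agent.Helper73.MD.ee ((h : ℝ) * y w a i) := by
      intro a i hiK hsi
      rw [ee_eq, mul_left_comm, ← Pool.Agent.Helper73.MD.ee_add]
      congr 2
      rw [hy]
      simp only
      push_cast
      have e1 : (b : ℝ) ^ M = (b : ℝ) ^ (K + 1 - i) * (b : ℝ) ^ (i + l) := by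
        rw [← pow_add]
        congr 1
        omega
      have e2 : (b : ℝ) ^ (K + 1 + s - i) = (b : ℝ) ^ (K + 1 - i) * (b : ℝ) ^ s := by
        rw [← pow_add]
        congr 1
        omega
      have e3 : (h : ℝ) = (b : ℝ) ^ s * h0 := by
        rw [hhs]
        push_cast
        ring
      rw [e1, e2, e3]
      field_simp
      ring
    have hlarge : ∀ a ∈ B', (e / 2) * Fintype.card I0
        ≤ (∑ i : I0, ee (b ^ M) ((h0 : ℤ) * (b : ℤ) ^ (K + 1 + s - (i : ℕ)) * a)
          * (Complex.I ^ (d : ℕ) *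
            Pool.Agent.Helper73.MD.ee (-((h : ℝ) * w i / (b : ℝ) ^ l)))).re := by
      intro a ha
      have h1 := hB'P a ha
      simp only at h1
      have h2 : Complex.I ^ (d : ℕ) * Pool.Agent.Helper67.NM.es K (y w a) h
          = ∑ i ∈ range K, Complex.I ^ (d : ℕ) * Pool.Agent.Helper73.MD.ee ((h : ℝ) * y w a i) := by
        unfold Pool.Agent.Helper67.NM.es
        rw [Finset.mul_sum]
      rw [h2] at h1
      have h3 : ∑ i : I0, ee (b ^ M) ((h0 : ℤ) * (b : ℤ) ^ (K + 1 + s - (i : ℕ)) * a)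
          * (Complex.I ^ (d : ℕ) * Pool.Agent.Helper73.MD.ee (-((h : ℝ) * w i / (b : ℝ) ^ l)))
          = ∑ i ∈ I0, Complex.I ^ (d : ℕ) * Pool.Agent.Helper73.MD.ee ((h : ℝ) * y w a i) := by
        rw [← Finset.sum_coe_sort I0
          (fun i => Complex.I ^ (d : ℕ) * Pool.Agent.Helper73.MD.ee ((h : ℝ) * y w a i))]
        refine Finset.sum_congr rfl fun i _ => ?_
        have hi := (Finset.mem_filter.mp i.2)
        exact hexp a i (Finset.mem_range.mp hi.1) hi.2
      rw [h3]
      rw [← Finset.sum_filter_add_sum_filter_not (range K) (fun i => s < i + l),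
        Complex.add_re] at h1
      have h4 : (∑ i ∈ (range K).filter (fun i => ¬ s < i + l),
          Complex.I ^ (d : ℕ) * Pool.Agent.Helper73.MD.ee ((h : ℝ) * y w a i)).re ≤ H := by
        calc (∑ i ∈ (range K).filter (fun i => ¬ s < i + l),
              Complex.I ^ (d : ℕ) * Pool.Agent.Helper73.MD.ee ((h : ℝ) * y w a i)).re
            ≤ ‖∑ i ∈ (range K).filter (fun i => ¬ s < i + l),
              Complex.I ^ (d : ℕ) * Pool.Agent.Helper73.MD.ee ((h : ℝ) * y w a i)‖ :=
              Complex.re_le_norm _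
          _ ≤ ∑ i ∈ (range K).filter (fun i => ¬ s < i + l), (1 : ℝ) := by
              refine (norm_sum_le _ _).trans (Finset.sum_le_sum fun i _ => ?_)
              rw [norm_mul, norm_pow, Complex.norm_I, one_pow, one_mul,
                Pool.Agent.Helper73.MD.norm_ee]
          _ = ((range K).filter (fun i => ¬ s < i + l)).card := by simp
          _ ≤ H := by
              have h5 := Finset.card_filter_add_card_filter_not (s := range K) (fun i => s < i + l)
              rw [Finset.card_range] at h5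
              have h6 : ((range K).filter (fun i => ¬ s < i + l)).card ≤ s + 1 := by
                rw [← Finset.card_range (s + 1)]
                apply Finset.card_le_card
                intro i hi
                rw [Finset.mem_filter] at hi
                rw [Finset.mem_range]
                omega
              have h7 : ((range K).filter (fun i => ¬ s < i + l)).card ≤ H := by omega
              exact_mod_cast h7
      rw [Fintype.card_coe]
      have h5 : (I0.card : ℝ) ≤ K := by exact_mod_cast hI0K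
      have h6 : e / 2 * (I0.card : ℝ) ≤ e / 2 * K := mul_le_mul_of_nonneg_left h5 (by positivity)
      rw [← hI0] at h1
      linarith
    have hmain := one_class (ι := I0) hb (h0 := (h0 : ℤ))
      (by exact_mod_cast hbh0) (t := fun i : I0 => K + 1 + s - (i : ℕ))
      (by
        intro i j hij
        have hi := (Finset.mem_filter.mp i.2).1
        have hj := (Finset.mem_filter.mp j.2).1
        rw [Finset.mem_range] at hi hj
        simp only at hij
        apply Subtype.ext
        omega)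
      (M := M)
      (by
        intro i
        have hi := (Finset.mem_filter.mp i.2)
        rw [Finset.mem_range] at hi
        show K + 1 + s - (i : ℕ) < M
        omega)
      (B := B')
      (by
        intro a ha a' ha'
        have h1 := hB'lt a ha
        have h2 := hB'lt a' ha'
        omega)
      (θ := fun i : I0 => Complex.I ^ (d : ℕ) *
        Pool.Agent.Helper73.MD.ee (-((h : ℝ) * w i / (b : ℝ) ^ l)))
      (by
        intro i
        rw [norm_mul, norm_pow, Complex.norm_I, one_pow, one_mul,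
          Pool.Agent.Helper73.MD.norm_ee])
      (δ := e / 2) (by positivity) hlarge
    rw [Fintype.card_coe] at hmain
    rw [sum_r_sq_eq hB'lt hbM] at hmain
    have hE' : ∑ n ∈ range (2 * b ^ K), (r B' n : ℝ) ^ 2 ≤ E := by
      refine Finset.sum_le_sum fun n _ => ?_
      have : (r B' n : ℝ) ≤ r B n := by exact_mod_cast r_mono hB'sub n
      gcongr
    have hexp2 : Real.exp (c * K) ≤ Real.exp ((e / 2) ^ 4 / 4 * I0.card) := by
      apply Real.exp_le_exp.mpr
      have h1 : (K : ℝ) ≤ I0.card + H := by exact_mod_cast hI0card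
      have h2 : (K : ℝ) / 2 ≤ I0.card := by linarith
      have h3 : (e / 2) ^ 4 / 4 * ((K : ℝ) / 2) ≤ (e / 2) ^ 4 / 4 * I0.card :=
        mul_le_mul_of_nonneg_left h2 (by positivity)
      rw [hc]
      linarith
    have hcardR : (B.card : ℝ) ≤ (W.card * (4 * H)) * B'.card := by
      have h1 : S.card = W.card * (H * 4) := by
        rw [hS, Finset.card_product, Finset.card_product]
        simp
      rw [h1] at hcard
      have h2 : (B.card : ℝ) ≤ ((W.card * (H * 4) * B'.card : ℕ) : ℝ) := by exact_mod_cast hcard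
      push_cast at h2
      linarith
    calc (B.card : ℝ) ^ 4 * Real.exp (c * K)
        ≤ ((W.card * (4 * H)) * B'.card) ^ 4 * Real.exp ((e / 2) ^ 4 / 4 * I0.card) := by
          gcongr
      _ = (W.card * (4 * H)) ^ 4 * ((B'.card : ℝ) ^ 4 * Real.exp ((e / 2) ^ 4 / 4 * I0.card)) := by
          ring
      _ ≤ (W.card * (4 * H)) ^ 4 * ((b : ℝ) ^ M * E) := by
          apply mul_le_mul_of_nonneg_left _ (by positivity)
          exact hmain.trans (mul_le_mul_of_nonneg_left hE' (by positivity))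
      _ = C2 * (W.card : ℝ) ^ 4 * (b : ℝ) ^ K * E := by
          rw [hC2, hM]
          ring
      _ ≤ (C1 + C2) * (W.card : ℝ) ^ 4 * (b : ℝ) ^ K * E := by
          gcongr
          linarith

end Pool.Agent.Helper16.NM
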