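import Mathlib

namespace Pool.Agent.Helper16.NM

open Finset Complex

/-- `r B n` is the number of pairs `(a, b)` of elements of `B` with `a + b = n`. -/
def r (B : Finset ℕ) (n : ℕ) : ℕ := ((B ×ˢ B).filter fun p => p.1 + p.2 = n).card

/-- the exponential `e(m / N)` -/
noncomputable def ee (N : ℕ) (m : ℤ) : ℂ := cexp (2 * Real.pi * I * ((m : ℂ) / (N : ℂ)))

theorem ee_zero (N : ℕ) : ee N 0 = 1 := by simp [ee]

theorem ee_add (N : ℕ) (a b : ℤ) : ee N (a + b) = ee N a * ee N b := by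
  unfold ee
  rw [← Complex.exp_add]
  congr 1
  push_cast
  ring

theorem norm_ee (N : ℕ) (m : ℤ) : ‖ee N m‖ = 1 := by
  unfold ee
  have : (2 * Real.pi * I * ((m : ℂ) / (N : ℂ))) = ((2 * Real.pi * ((m : ℝ) / (N : ℝ)) : ℝ) : ℂ) * I := by
    push_cast
    ring
  rw [this, Complex.norm_exp_ofReal_mul_I]

theorem ee_neg (N : ℕ) (m : ℤ) : ee N (-m) = (starRingEnd ℂ) (ee N m) := by
  unfold ee
  rw [← Complex.exp_conj]
  congr 1
  simp only [map_mul, map_div₀, Complex.conj_ofReal, Complex.conj_I, map_ofNat,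
    Complex.conj_natCast, map_intCast]
  push_cast
  ring

theorem ee_pow (N : ℕ) (m : ℤ) (n : ℕ) : ee N m ^ n = ee N (m * n) := by
  unfold ee
  rw [← Complex.exp_nat_mul]
  congr 1
  push_cast
  ring

theorem sum_ee_eq_zero {N : ℕ} (hN : 0 < N) {m : ℤ} (hm : ¬ (N : ℤ) ∣ m) :
    ∑ n ∈ range N, ee N (m * n) = 0 := by
  have h1 : ee N m ≠ 1 := by
    intro h
    unfold ee at h
    rw [Complex.exp_eq_one_iff] at h
    obtain ⟨k, hk⟩ := h
    apply hm
    refine ⟨k, ?_⟩
    have hpi : (2 * Real.pi * I : ℂ) ≠ 0 := by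
      simp [Real.pi_ne_zero]
    have hN' : (N : ℂ) ≠ 0 := by exact_mod_cast hN.ne'
    have h2 : (2 * Real.pi * I : ℂ) * ((m : ℂ) / (N : ℂ)) = (2 * Real.pi * I : ℂ) * (k : ℂ) := by
      rw [hk]; ring
    have h3 := mul_left_cancel₀ hpi h2
    rw [div_eq_iff hN'] at h3
    have h4 : (m : ℂ) = ((k * N : ℤ) : ℂ) := by rw [h3]; push_cast; ring
    have h5 : m = k * N := by exact_mod_cast h4
    rw [h5]; ring
  have h2 : ee N m ^ N = 1 := by
    rw [ee_pow]
    unfold ee
    have hN' : (N : ℂ) ≠ 0 := by exact_mod_cast hN.ne'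
    rw [Complex.exp_eq_one_iff]
    refine ⟨m, ?_⟩
    push_cast
    field_simp
  have h3 : (∑ n ∈ range N, ee N (m * n)) * (ee N m - 1) = 0 := by
    have : ∑ n ∈ range N, ee N (m * n) = ∑ n ∈ range N, ee N m ^ n :=
      Finset.sum_congr rfl fun n _ => (ee_pow N m n).symm
    rw [this, geom_sum_mul, h2, sub_self]
  rcases mul_eq_zero.mp h3 with h | h
  · exact h
  · exact absurd (sub_eq_zero.mp h) h1

/-- `h` is dissociated modulo `N` -/
def Dissoc {ι : Type} [Fintype ι] (N : ℕ) (h : ι → ℤ) : Prop :=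
  ∀ e : ι → ℤ, (∀ i, e i = -1 ∨ e i = 0 ∨ e i = 1) → (N : ℤ) ∣ ∑ i, e i * h i → ∀ i, e i = 0

theorem sum_prod {ι : Type} [Fintype ι] [DecidableEq ι] {N : ℕ} (hN : 0 < N) {h : ι → ℤ}
    (hd : Dissoc N h) (a : ι → ℤ → ℂ) (ha : ∀ i, a i 0 = 1) :
    ∑ n ∈ range N, ∏ i, ∑ e ∈ ({-1, 0, 1} : Finset ℤ), a i e * ee N (e * h i * n) = N := by
  have h1 : ∀ n ∈ range N, ∏ i, ∑ e ∈ ({-1, 0, 1} : Finset ℤ), a i e * ee N (e * h i * n)
      = ∑ p ∈ Fintype.piFinset (fun _ : ι => ({-1, 0, 1} : Finset ℤ)),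
          (∏ i, a i (p i)) * ee N ((∑ i, p i * h i) * n) := by
    intro n _
    rw [Finset.prod_univ_sum]
    refine Finset.sum_congr rfl fun p _ => ?_
    rw [Finset.prod_mul_distrib]
    congr 1
    have : ∀ s : Finset ι, ∏ i ∈ s, ee N (p i * h i * n) = ee N ((∑ i ∈ s, p i * h i) * n) := by
      intro s
      induction s using Finset.induction_on with
      | empty => simp [ee_zero]
      | insert j s hj ih =>
        rw [Finset.prod_insert hj, Finset.sum_insert hj, ih, add_mul, ee_add]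
    exact this Finset.univ
  rw [Finset.sum_congr rfl h1, Finset.sum_comm]
  have h2 : ∀ p ∈ Fintype.piFinset (fun _ : ι => ({-1, 0, 1} : Finset ℤ)),
      ∑ n ∈ range N, (∏ i, a i (p i)) * ee N ((∑ i, p i * h i) * n)
        = if p = 0 then (N : ℂ) else 0 := by
    intro p hp
    rw [← Finset.mul_sum]
    split_ifs with h0
    · subst h0
      simp [ha, ee_zero]
    · rw [sum_ee_eq_zero hN, mul_zero]
      intro hdiv
      apply h0
      have hp' : ∀ i, p i = -1 ∨ p i = 0 ∨ p i = 1 := by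
        intro i
        have := Fintype.mem_piFinset.mp hp i
        simpa using this
      funext i
      exact hd p hp' hdiv i
  rw [Finset.sum_congr rfl h2, Finset.sum_ite_eq']
  have : (0 : ι → ℤ) ∈ Fintype.piFinset (fun _ : ι => ({-1, 0, 1} : Finset ℤ)) := by
    rw [Fintype.mem_piFinset]
    intro i
    simp
  rw [if_pos this]

/-- the real Riesz product -/
noncomputable def rp {ι : Type} [Fintype ι] (N : ℕ) (h : ι → ℤ) (c : ι → ℂ) (n : ℕ) : ℝ :=
  ∏ i, (1 + (c i * ee N (h i * n)).re)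

theorem sum_rp {ι : Type} [Fintype ι] [DecidableEq ι] {N : ℕ} (hN : 0 < N) {h : ι → ℤ}
    (hd : Dissoc N h) (c : ι → ℂ) : ∑ n ∈ range N, rp N h c n = N := by
  have h0 := sum_prod hN hd
    (fun i e => if e = 0 then 1 else if e = 1 then c i / 2 else (starRingEnd ℂ) (c i) / 2)
    (fun i => by simp)
  have h1 : ((∑ n ∈ range N, rp N h c n : ℝ) : ℂ) = N := by
    rw [← h0]
    push_cast
    refine Finset.sum_congr rfl fun n _ => ?_
    unfold rp
    push_cast
    refine Finset.prod_congr rfl fun i _ => ?_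
    rw [Finset.sum_insert (by decide), Finset.sum_insert (by decide), Finset.sum_singleton]
    have e1 : (-1 : ℤ) * h i * n = -(h i * n) := by ring
    have e2 : (0 : ℤ) * h i * n = 0 := by ring
    have e3 : (1 : ℤ) * h i * n = h i * n := by ring
    rw [e1, e2, e3, ee_zero, ee_neg]
    have e4 : (((c i * ee N (h i * n)).re : ℝ) : ℂ)
        = (c i * ee N (h i * n) + (starRingEnd ℂ) (c i * ee N (h i * n))) / 2 := by
      rw [Complex.add_conj]
      push_cast
      ring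
    rw [e4, map_mul]
    norm_num
    ring
  exact_mod_cast h1

theorem log_ge {u : ℝ} (h1 : -(1 / 2) ≤ u) : u - u ^ 2 ≤ Real.log (1 + u) := by
  have hder : ∀ t : ℝ, -1 < t → HasDerivAt (fun t : ℝ => Real.log (1 + t) - t + t ^ 2)
      (1 / (1 + t) - 1 + 2 * t) t := by
    intro t ht
    have e1 : HasDerivAt (fun t : ℝ => Real.log (1 + t)) (1 / (1 + t)) t :=
      ((hasDerivAt_id t).const_add 1).log (by simp; linarith)
    have e2 : HasDerivAt (fun t : ℝ => t ^ 2) (2 * t) t := by simpa using hasDerivAt_pow 2 t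
    exact (e1.sub (hasDerivAt_id t)).add e2
  have hcont : ∀ t : ℝ, -1 < t → ContinuousAt (fun t : ℝ => Real.log (1 + t) - t + t ^ 2) t :=
    fun t ht => (hder t ht).continuousAt
  rcases le_total u 0 with hu | hu
  · have hanti : AntitoneOn (fun t : ℝ => Real.log (1 + t) - t + t ^ 2) (Set.Icc (-(1 / 2)) 0) := by
      apply antitoneOn_of_deriv_nonpos (convex_Icc _ _)
      · intro t ht
        exact (hcont t (by linarith [ht.1])).continuousWithinAt
      · intro t ht
        rw [interior_Icc] at ht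
        exact (hder t (by linarith [ht.1])).differentiableAt.differentiableWithinAt
      · intro t ht
        rw [interior_Icc] at ht
        rw [(hder t (by linarith [ht.1])).deriv]
        have h1t : 0 < 1 + t := by linarith [ht.1]
        have : 1 / (1 + t) - 1 + 2 * t = t * (1 + 2 * t) / (1 + t) := by
          field_simp
          ring
        rw [this]
        apply div_nonpos_of_nonpos_of_nonneg _ h1t.le
        exact mul_nonpos_of_nonpos_of_nonneg ht.2.le (by linarith [ht.1])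
    have := hanti ⟨h1, hu⟩ (Set.right_mem_Icc.mpr (by norm_num)) hu
    simp at this
    linarith
  · have hmono : MonotoneOn (fun t : ℝ => Real.log (1 + t) - t + t ^ 2) (Set.Ici 0) := by
      apply monotoneOn_of_deriv_nonneg (convex_Ici _)
      · intro t ht
        exact (hcont t (by linarith [Set.mem_Ici.mp ht])).continuousWithinAt
      · intro t ht
        rw [interior_Ici] at ht
        exact (hder t (by linarith [Set.mem_Ioi.mp ht])).differentiableAt.differentiableWithinAt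
      · intro t ht
        rw [interior_Ici] at ht
        have ht' := Set.mem_Ioi.mp ht
        rw [(hder t (by linarith)).deriv]
        have h1t : 0 < 1 + t := by linarith
        have : 1 / (1 + t) - 1 + 2 * t = t * (1 + 2 * t) / (1 + t) := by
          field_simp
          ring
        rw [this]
        positivity
    have := hmono (Set.self_mem_Ici) hu hu
    simp at this
    linarith

theorem sum_pairs (B : Finset ℕ) {N : ℕ} (hN : ∀ a ∈ B, ∀ b ∈ B, a + b < N) (f : ℕ → ℝ) :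
    ∑ p ∈ B ×ˢ B, f (p.1 + p.2) = ∑ n ∈ range N, (r B n : ℝ) * f n := by
  have h : ∀ n ∈ range N, (r B n : ℝ) * f n
      = ∑ p ∈ (B ×ˢ B).filter (fun p => p.1 + p.2 = n), f (p.1 + p.2) := by
    intro n _
    rw [Finset.sum_congr rfl (g := fun _ => f n)
      (fun p hp => by rw [(Finset.mem_filter.mp hp).2])]
    rw [Finset.sum_const, nsmul_eq_mul]
    rfl
  rw [Finset.sum_congr rfl h]
  rw [Finset.sum_fiberwise_of_maps_to]
  intro p hp
  rw [Finset.mem_product] at hp
  rw [Finset.mem_range]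
  exact hN _ hp.1 _ hp.2

/-- `(EXP)`: large Fourier coefficients at dissociated frequencies force a large additive
energy. -/
theorem exp_growth {ι : Type} [Fintype ι] [DecidableEq ι] {B : Finset ℕ} {N : ℕ}
    (hN : ∀ a ∈ B, ∀ b ∈ B, a + b < N) {h : ι → ℤ} (hd : Dissoc N h) :
    (B.card : ℝ) ^ 4 * Real.exp (1 / 4 * ∑ i, (‖∑ a ∈ B, ee N (h i * a)‖ / B.card) ^ 4)
      ≤ N * ∑ n ∈ range N, (r B n : ℝ) ^ 2 := by
  classical
  rcases B.eq_empty_or_nonempty with hB | hB
  · subst hB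
    simp [r]
  set T : ℝ := (B.card : ℝ) with hT
  have hT0 : 0 < T := by
    rw [hT]
    exact_mod_cast hB.card_pos
  have hNpos : 0 < N := by
    obtain ⟨a, ha⟩ := hB
    have := hN a ha a ha
    omega
  set f : ι → ℂ := fun i => ∑ a ∈ B, ee N (h i * a) with hf
  set ρ : ι → ℂ := fun i => (f i / T) ^ 2 with hρ
  have hfle : ∀ i, ‖f i‖ ≤ T := by
    intro i
    calc ‖f i‖ ≤ ∑ a ∈ B, ‖ee N (h i * a)‖ := norm_sum_le _ _
      _ = T := by simp [norm_ee, hT]
  have hρle : ∀ i, ‖ρ i‖ ≤ 1 := by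
    intro i
    simp only [hρ, norm_pow, norm_div, Complex.norm_real, Real.norm_eq_abs, abs_of_pos hT0]
    apply pow_le_one₀ (by positivity)
    rw [div_le_one hT0]
    exact hfle i
  set c : ι → ℂ := fun i => (starRingEnd ℂ) (ρ i) / 2 with hc
  have hcn : ∀ i, ‖c i‖ = ‖ρ i‖ / 2 := by
    intro i
    simp [hc]
  have hu : ∀ i (n : ℕ), |(c i * ee N (h i * n)).re| ≤ ‖ρ i‖ / 2 := by
    intro i n
    calc |(c i * ee N (h i * n)).re| ≤ ‖c i * ee N (h i * n)‖ := Complex.abs_re_le_norm _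
      _ = ‖ρ i‖ / 2 := by rw [norm_mul, norm_ee, mul_one, hcn]
  have hpos : ∀ i (n : ℕ), 0 < 1 + (c i * ee N (h i * n)).re := by
    intro i n
    have := (abs_le.mp (hu i n)).1
    have := hρle i
    linarith
  have hrp : ∀ n, 0 < rp N h c n := fun n => Finset.prod_pos fun i _ => hpos i n
  -- the average of the exponential sums over the pairs
  have hpair : ∀ i, ∑ p ∈ B ×ˢ B, (c i * ee N (h i * ((p.1 + p.2 : ℕ) : ℤ))).re
      = T ^ 2 * (‖ρ i‖ ^ 2 / 2) := by
    intro i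
    have e1 : ∑ p ∈ B ×ˢ B, c i * ee N (h i * ((p.1 + p.2 : ℕ) : ℤ)) = c i * (f i) ^ 2 := by
      rw [← Finset.mul_sum, Finset.sum_product, sq, hf]
      simp only
      rw [Finset.sum_mul_sum]
      congr 1
      refine Finset.sum_congr rfl fun a _ => Finset.sum_congr rfl fun b _ => ?_
      rw [← ee_add]
      congr 1
      push_cast
      ring
    have e2 : (f i) ^ 2 = (T : ℂ) ^ 2 * ρ i := by
      simp only [hρ]
      have : (T : ℂ) ≠ 0 := by exact_mod_cast hT0.ne'
      field_simp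
    rw [← Complex.re_sum, e1, e2, hc]
    have e3 : (starRingEnd ℂ) (ρ i) / 2 * ((T : ℂ) ^ 2 * ρ i)
        = ((T ^ 2 * (‖ρ i‖ ^ 2 / 2) : ℝ) : ℂ) := by
      have : (starRingEnd ℂ) (ρ i) * ρ i = ((‖ρ i‖ ^ 2 : ℝ) : ℂ) := by
        rw [mul_comm, Complex.mul_conj, Complex.normSq_eq_norm_sq]
      push_cast
      push_cast at this
      linear_combination ((T : ℂ) ^ 2 / 2) * this
    rw [e3, Complex.ofReal_re]
  have hcardp : ((B ×ˢ B).card : ℝ) = T ^ 2 := by
    rw [Finset.card_product]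
    push_cast
    ring
  -- lower bound for the mean of log P
  have hlog : T ^ 2 * (∑ i, ‖ρ i‖ ^ 2 / 4) ≤ ∑ p ∈ B ×ˢ B, Real.log (rp N h c (p.1 + p.2)) := by
    have e1 : ∀ p : ℕ × ℕ, Real.log (rp N h c (p.1 + p.2))
        = ∑ i, Real.log (1 + (c i * ee N (h i * ((p.1 + p.2 : ℕ) : ℤ))).re) := by
      intro p
      unfold rp
      rw [Real.log_prod]
      intro i _
      exact (hpos i _).ne'
    simp only [e1]
    rw [Finset.sum_comm, Finset.mul_sum]
    refine Finset.sum_le_sum fun i _ => ?_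
    calc T ^ 2 * (‖ρ i‖ ^ 2 / 4)
        = ∑ p ∈ B ×ˢ B, ((c i * ee N (h i * ((p.1 + p.2 : ℕ) : ℤ))).re - (‖ρ i‖ / 2) ^ 2) := by
          rw [Finset.sum_sub_distrib, hpair, Finset.sum_const, nsmul_eq_mul, hcardp]
          ring
      _ ≤ ∑ p ∈ B ×ˢ B, Real.log (1 + (c i * ee N (h i * ((p.1 + p.2 : ℕ) : ℤ))).re) := by
          refine Finset.sum_le_sum fun p _ => ?_
          have a1 := hu i (p.1 + p.2)
          have a2 := hρle i
          have a3 := (abs_le.mp a1).1
          refine le_trans ?_ (log_ge (by linarith))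
          have a4 : (c i * ee N (h i * ((p.1 + p.2 : ℕ) : ℤ))).re ^ 2 ≤ (‖ρ i‖ / 2) ^ 2 :=
            sq_le_sq' (abs_le.mp a1).1 (abs_le.mp a1).2
          linarith
  -- Jensen
  have hjen : Real.exp (∑ p ∈ B ×ˢ B, (1 / T ^ 2) • (Real.log (rp N h c (p.1 + p.2)) / 2))
      ≤ ∑ p ∈ B ×ˢ B, (1 / T ^ 2) • Real.exp (Real.log (rp N h c (p.1 + p.2)) / 2) := by
    apply convexOn_exp.map_sum_le
    · intro p _
      positivity
    · rw [Finset.sum_const, nsmul_eq_mul, hcardp]
      field_simp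
    · intro p _
      exact Set.mem_univ _
  have hsq : ∀ n, Real.exp (Real.log (rp N h c n) / 2) = Real.sqrt (rp N h c n) := by
    intro n
    rw [Real.sqrt_eq_rpow, Real.rpow_def_of_pos (hrp n)]
    congr 1
    ring
  simp only [hsq, smul_eq_mul] at hjen
  rw [← Finset.mul_sum, ← Finset.mul_sum] at hjen
  rw [sum_pairs B hN (fun n => Real.sqrt (rp N h c n))] at hjen
  -- Cauchy-Schwarz
  have hcs : (∑ n ∈ range N, (r B n : ℝ) * Real.sqrt (rp N h c n)) ^ 2
      ≤ (∑ n ∈ range N, (r B n : ℝ) ^ 2) * N := by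
    refine le_trans (Finset.sum_mul_sq_le_sq_mul_sq _ _ _) ?_
    have : ∑ n ∈ range N, Real.sqrt (rp N h c n) ^ 2 = N := by
      rw [← sum_rp hNpos hd c]
      refine Finset.sum_congr rfl fun n _ => ?_
      rw [Real.sq_sqrt (hrp n).le]
    rw [this]
  have h1 : Real.exp ((∑ i, ‖ρ i‖ ^ 2 / 4) / 2)
      ≤ 1 / T ^ 2 * ∑ n ∈ range N, (r B n : ℝ) * Real.sqrt (rp N h c n) := by
    refine le_trans (Real.exp_le_exp.mpr ?_) hjen
    have e5 : ∑ p ∈ B ×ˢ B, Real.log (rp N h c (p.1 + p.2)) / 2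
        = (∑ p ∈ B ×ˢ B, Real.log (rp N h c (p.1 + p.2))) / 2 := (Finset.sum_div _ _ _).symm
    rw [e5, one_div, inv_mul_eq_div, le_div_iff₀ (by positivity)]
    linarith
  have h2 : Real.exp (∑ i, ‖ρ i‖ ^ 2 / 4)
      ≤ (1 / T ^ 2) ^ 2 * ((∑ n ∈ range N, (r B n : ℝ) ^ 2) * N) := by
    have e : Real.exp (∑ i, ‖ρ i‖ ^ 2 / 4) = Real.exp ((∑ i, ‖ρ i‖ ^ 2 / 4) / 2) ^ 2 := by
      rw [← Real.exp_nat_mul]
      congr 1
      push_cast
      ring
    rw [e]
    calc Real.exp ((∑ i, ‖ρ i‖ ^ 2 / 4) / 2) ^ 2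
        ≤ (1 / T ^ 2 * ∑ n ∈ range N, (r B n : ℝ) * Real.sqrt (rp N h c n)) ^ 2 :=
          pow_le_pow_left₀ (Real.exp_pos _).le h1 2
      _ = (1 / T ^ 2) ^ 2 * (∑ n ∈ range N, (r B n : ℝ) * Real.sqrt (rp N h c n)) ^ 2 := by ring
      _ ≤ _ := mul_le_mul_of_nonneg_left hcs (by positivity)
  have h3 : (1 / 4 * ∑ i, (‖∑ a ∈ B, ee N (h i * a)‖ / T) ^ 4) = ∑ i, ‖ρ i‖ ^ 2 / 4 := by
    rw [Finset.mul_sum]
    refine Finset.sum_congr rfl fun i _ => ?_
    simp only [hρ, norm_pow, norm_div, Complex.norm_real, Real.norm_eq_abs, abs_of_pos hT0]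
    ring
  rw [h3]
  calc T ^ 4 * Real.exp (∑ i, ‖ρ i‖ ^ 2 / 4)
      ≤ T ^ 4 * ((1 / T ^ 2) ^ 2 * ((∑ n ∈ range N, (r B n : ℝ) ^ 2) * N)) :=
        mul_le_mul_of_nonneg_left h2 (by positivity)
    _ = N * ∑ n ∈ range N, (r B n : ℝ) ^ 2 := by
        field_simp

end Pool.Agent.Helper16.NM
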