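import Pool.Agent.Helper16.NM.Main

namespace Pool.Agent.Helper16.NM

open Finset Filter

/-- `rep A n` is the number of pairs `(a, a')` of elements of `A` with `a + a' = n`. -/
noncomputable def rep (A : Set ℕ) (n : ℕ) : ℕ :=
  Set.ncard {p : ℕ × ℕ | p.1 ∈ A ∧ p.2 ∈ A ∧ p.1 + p.2 = n}

theorem rep_set_finite (A : Set ℕ) (n : ℕ) :
    {p : ℕ × ℕ | p.1 ∈ A ∧ p.2 ∈ A ∧ p.1 + p.2 = n}.Finite := by
  apply Set.Finite.subset ((Finset.range (n + 1) ×ˢ Finset.range (n + 1)).finite_toSet)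
  rintro ⟨a, a'⟩ ⟨_, _, h⟩
  simp only [Finset.coe_product, Finset.coe_range, Set.mem_prod, Set.mem_Iio]
  simp only at h
  omega

theorem rep_le (A : Set ℕ) (n : ℕ) : rep A n ≤ n + 1 := by
  unfold rep
  have h : {p : ℕ × ℕ | p.1 ∈ A ∧ p.2 ∈ A ∧ p.1 + p.2 = n}
      ⊆ ((Finset.range (n + 1)).image (fun a => (a, n - a)) : Finset (ℕ × ℕ)) := by
    rintro ⟨a, a'⟩ ⟨_, _, h⟩
    simp only at h
    rw [Finset.coe_image]
    refine ⟨a, ?_, ?_⟩
    · simp only [Finset.coe_range, Set.mem_Iio]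
      omega
    · simp only [Prod.mk.injEq, true_and]
      omega
  calc Set.ncard _ ≤ Set.ncard (((Finset.range (n + 1)).image (fun a => (a, n - a)) :
        Finset (ℕ × ℕ)) : Set (ℕ × ℕ)) := Set.ncard_le_ncard h (Finset.finite_toSet _)
    _ = ((Finset.range (n + 1)).image (fun a => (a, n - a))).card := Set.ncard_coe_finset _
    _ ≤ (Finset.range (n + 1)).card := Finset.card_image_le
    _ = n + 1 := Finset.card_range _

theorem r_le_rep {B : Finset ℕ} {A : Set ℕ} (h : ∀ a ∈ B, a ∈ A) (n : ℕ) : r B n ≤ rep A n := by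
  unfold r rep
  rw [← Set.ncard_coe_finset]
  apply Set.ncard_le_ncard _ (rep_set_finite A n)
  rintro ⟨a, a'⟩ hp
  rw [Finset.mem_coe, Finset.mem_filter, Finset.mem_product] at hp
  exact ⟨h _ hp.1.1, h _ hp.1.2, hp.2⟩

/-- `n` is `(ε, l)`-normal in base `b` with respect to its first `K` digits -/
def Nrm (b l : ℕ) (ε : ℝ) (K n : ℕ) : Prop :=
  ∀ v < b ^ l, |(((range K).filter fun i => n / b ^ i % b ^ l = v).card : ℝ) - K / (b : ℝ) ^ l|
    < ε * K

theorem normal_elements (b l : ℕ) (hb : 2 ≤ b) (ε : ℝ) (hε : 0 < ε) :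
    ∃ c : ℝ, 0 < c ∧ ∀ A : Set ℕ, (∀ᶠ n : ℕ in atTop, (rep A n : ℝ) < (n : ℝ) ^ c) →
      ∀ᶠ K : ℕ in atTop, (Set.ncard {a | a ∈ A ∧ a < b ^ K ∧ ¬ Nrm b l ε K a} : ℝ)
        < (b : ℝ) ^ ((K : ℝ) * (1 / 2 - c)) := by
  classical
  obtain ⟨c1, hc1, C, hC, hmain⟩ := main_ineq b l hb ε hε
  have hbR : (1 : ℝ) < (b : ℝ) := by exact_mod_cast (by omega : 1 < b)
  have hb0 : (0 : ℝ) < (b : ℝ) := by linarith
  set L : ℝ := Real.log b with hL
  have hL0 : 0 < L := Real.log_pos hbR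
  set c : ℝ := c1 / (6 * L) with hc
  have hc0 : 0 < c := by positivity
  have hcL : 3 * c * L = c1 / 2 := by rw [hc]; field_simp; norm_num
  refine ⟨c, hc0, fun A hA => ?_⟩
  obtain ⟨n0, hn0⟩ := eventually_atTop.mp hA
  -- large K
  have hK1 : ∀ᶠ K : ℕ in atTop, ((n0 : ℝ) + 1) ≤ ((2 * b ^ K : ℕ) : ℝ) ^ c := by
    have h1 : Tendsto (fun K : ℕ => ((2 * b ^ K : ℕ) : ℝ)) atTop atTop := by
      apply tendsto_natCast_atTop_atTop.comp
      apply tendsto_atTop_mono (fun K => (Nat.lt_pow_self (by omega : 1 < b)).le.trans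
        (Nat.le_mul_of_pos_left _ (by norm_num)))
      exact tendsto_id
    exact ((tendsto_rpow_atTop hc0).comp h1).eventually_ge_atTop _
  have hK2 : ∀ᶠ K : ℕ in atTop,
      C * ((b : ℝ) ^ l) ^ 4 * (2 : ℝ) ^ c < Real.exp (c1 / 2 * K) := by
    have h1 : Tendsto (fun K : ℕ => Real.exp (c1 / 2 * K)) atTop atTop := by
      apply Real.tendsto_exp_atTop.comp
      exact tendsto_natCast_atTop_atTop.const_mul_atTop (by positivity)
    exact h1.eventually_gt_atTop _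
  filter_upwards [hK1, hK2] with K h1 h2
  by_contra hcon
  push Not at hcon
  set SB : Set ℕ := {a | a ∈ A ∧ a < b ^ K ∧ ¬ Nrm b l ε K a} with hSB
  have hfin : SB.Finite := by
    apply Set.Finite.subset (Set.finite_Iio (b ^ K))
    intro a ha
    exact ha.2.1
  set B : Finset ℕ := hfin.toFinset with hB
  have hcardB : (B.card : ℝ) = (Set.ncard SB : ℝ) := by
    rw [Set.ncard_eq_toFinset_card SB hfin]
  have hBmem : ∀ a ∈ B, a ∈ A ∧ a < b ^ K ∧ ¬ Nrm b l ε K a := by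
    intro a ha
    rw [hB, Set.Finite.mem_toFinset] at ha
    exact ha
  set W : Finset (ℕ → ℕ) := (range (b ^ l)).image (fun v _ => v) with hW
  have hWcard : (W.card : ℝ) ≤ (b : ℝ) ^ l := by
    have : W.card ≤ b ^ l := by
      rw [hW]
      exact Finset.card_image_le.trans (by rw [Finset.card_range])
    exact_mod_cast this
  have h3 := hmain K W B
    (by
      intro w hw i
      rw [hW, Finset.mem_image] at hw
      obtain ⟨v, hv, rfl⟩ := hw
      exact Finset.mem_range.mp hv)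
    (by
      intro n hn
      obtain ⟨_, hlt, hnot⟩ := hBmem n hn
      refine ⟨hlt, ?_⟩
      unfold Nrm at hnot
      push Not at hnot
      obtain ⟨v, hv, hdev⟩ := hnot
      refine ⟨fun _ => v, ?_, hdev⟩
      rw [hW, Finset.mem_image]
      exact ⟨v, Finset.mem_range.mpr hv, rfl⟩)
  -- bound the energy
  set G : ℝ := ((2 * b ^ K : ℕ) : ℝ) ^ c with hG
  have hG0 : 0 < G := by positivity
  have hr : ∀ n ∈ range (2 * b ^ K), (r B n : ℝ) ≤ G := by
    intro n hn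
    rw [Finset.mem_range] at hn
    have e1 : (r B n : ℝ) ≤ rep A n := by exact_mod_cast r_le_rep (fun a ha => (hBmem a ha).1) n
    rcases lt_or_ge n n0 with hlt | hge
    · have e2 : (rep A n : ℝ) ≤ n + 1 := by exact_mod_cast rep_le A n
      have e3 : (n : ℝ) ≤ n0 := by exact_mod_cast hlt.le
      linarith
    · have e2 := hn0 n hge
      have e3 : (n : ℝ) ^ c ≤ G := by
        apply Real.rpow_le_rpow (by positivity) _ hc0.le
        exact_mod_cast hn.le
      linarith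
  have hsum : ∑ n ∈ range (2 * b ^ K), (r B n : ℝ) = (B.card : ℝ) ^ 2 := by
    have := sum_pairs B (N := 2 * b ^ K)
      (fun a ha a' ha' => by
        have := (hBmem a ha).2.1
        have := (hBmem a' ha').2.1
        omega) (fun _ => 1)
    simp only [Finset.sum_const, nsmul_eq_mul, mul_one, Finset.card_product] at this
    rw [← this]
    push_cast
    ring
  have hE : ∑ n ∈ range (2 * b ^ K), (r B n : ℝ) ^ 2 ≤ G * (B.card : ℝ) ^ 2 := by
    rw [← hsum, Finset.mul_sum]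
    refine Finset.sum_le_sum fun n hn => ?_
    rw [sq]
    exact mul_le_mul_of_nonneg_right (hr n hn) (by positivity)
  have hBlow : (b : ℝ) ^ ((K : ℝ) * (1 / 2 - c)) ≤ B.card := by rw [hcardB]; exact hcon
  have hBpos : (0 : ℝ) < B.card := lt_of_lt_of_le (Real.rpow_pos_of_pos hb0 _) hBlow
  have hB2 : (b : ℝ) ^ ((K : ℝ) * (1 - 2 * c)) ≤ (B.card : ℝ) ^ 2 := by
    have e1 : (b : ℝ) ^ ((K : ℝ) * (1 - 2 * c)) = ((b : ℝ) ^ ((K : ℝ) * (1 / 2 - c))) ^ 2 := by
      rw [← Real.rpow_natCast, ← Real.rpow_mul hb0.le]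
      congr 1
      push_cast
      ring
    rw [e1]
    exact pow_le_pow_left₀ (Real.rpow_nonneg hb0.le _) hBlow 2
  -- combine
  have h4 : (B.card : ℝ) ^ 2 * Real.exp (c1 * K) ≤ C * ((b : ℝ) ^ l) ^ 4 * (b : ℝ) ^ K * G := by
    have e1 : (B.card : ℝ) ^ 4 * Real.exp (c1 * K)
        ≤ C * ((b : ℝ) ^ l) ^ 4 * (b : ℝ) ^ K * (G * (B.card : ℝ) ^ 2) := by
      refine h3.trans ?_
      gcongr
    have e2 : (B.card : ℝ) ^ 2 * ((B.card : ℝ) ^ 2 * Real.exp (c1 * K))
        ≤ (B.card : ℝ) ^ 2 * (C * ((b : ℝ) ^ l) ^ 4 * (b : ℝ) ^ K * G) := by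
      calc (B.card : ℝ) ^ 2 * ((B.card : ℝ) ^ 2 * Real.exp (c1 * K))
          = (B.card : ℝ) ^ 4 * Real.exp (c1 * K) := by ring
        _ ≤ C * ((b : ℝ) ^ l) ^ 4 * (b : ℝ) ^ K * (G * (B.card : ℝ) ^ 2) := e1
        _ = (B.card : ℝ) ^ 2 * (C * ((b : ℝ) ^ l) ^ 4 * (b : ℝ) ^ K * G) := by ring
    exact le_of_mul_le_mul_left e2 (by positivity)
  have hGe : G = (2 : ℝ) ^ c * Real.exp (c * L * K) := by
    rw [hG]
    push_cast
    rw [Real.mul_rpow (by norm_num) (by positivity)]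
    congr 1
    rw [← Real.rpow_natCast, ← Real.rpow_mul hb0.le, Real.rpow_def_of_pos hb0]
    congr 1
    rw [hL]
    ring
  have hbK : (b : ℝ) ^ K = Real.exp (L * K) := by
    rw [← Real.rpow_natCast, Real.rpow_def_of_pos hb0]
  have hb2 : (b : ℝ) ^ ((K : ℝ) * (1 - 2 * c)) = Real.exp (L * (K * (1 - 2 * c))) := by
    rw [Real.rpow_def_of_pos hb0]
  have h5 : Real.exp (L * (K * (1 - 2 * c))) * Real.exp (c1 * K)
      ≤ C * ((b : ℝ) ^ l) ^ 4 * Real.exp (L * K) * ((2 : ℝ) ^ c * Real.exp (c * L * K)) := by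
    rw [← hb2, ← hbK, ← hGe]
    exact (mul_le_mul_of_nonneg_right hB2 (Real.exp_pos _).le).trans h4
  have h6 : Real.exp (L * (K * (1 - 2 * c))) * Real.exp (c1 * K)
      = Real.exp (L * K) * Real.exp (c * L * K) * Real.exp (c1 / 2 * K) := by
    rw [← Real.exp_add, ← Real.exp_add, ← Real.exp_add]
    congr 1
    linear_combination (-(K : ℝ)) * hcL
  rw [h6] at h5
  have h7 : Real.exp (L * K) * Real.exp (c * L * K) * Real.exp (c1 / 2 * K)
      ≤ Real.exp (L * K) * Real.exp (c * L * K) * (C * ((b : ℝ) ^ l) ^ 4 * (2 : ℝ) ^ c) := by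
    calc _ ≤ _ := h5
      _ = _ := by ring
  have h8 := le_of_mul_le_mul_left h7 (by positivity)
  linarith

end Pool.Agent.Helper16.NM
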